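import Pool.Agent.U365.AQG.A
import Pool.Agent.Results.MP_73b532_nt.AsymptoticEveryModulus
import Pool.Agent.Results.MP_73b532_nt.EveryModulusSevenTenths

/-!
# The conjecture of Goldbach and Knjzek for aliquot sums, cototients and similar functions

Let `s(m) = σ(m) - m` be the sum of the proper divisors of `m`. For almost all even integers `m` with a prime factor
larger than `m^(3/10 + ρ)` the even integers `2 n = s(m)` and `2 n = m - φ(m)` have a Goldbach partition `2 n = p + q` with
`√(2 n) < p ≤ n`, even with `p ≤ √(2 n) + 2 n / (log 2 n)^W`, and all windows between `√(2 n)` and `n` contain the expected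
number of them up to the factor `1 / 21`; up to a factor `1 ± ε`, if the prime factor is larger than `m^(1/3 + ρ)`. So the
conjecture holds for `s(m)` and for `m - φ(m)` for at least 70 per cent of all even `m`. The same is true for the even values
of all functions `g(m) = α m + β f(m)`, where `f` is any positive multiplicative function of moderate growth with
`f(p) = p + c`, `c ≠ 0`, for all large primes `p`, as long as `g(m)` is positive and not very small. These functions are not
multiplicative, nothing is known on the distribution of their values in the residue classes to large moduli, and their values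
are taken with large multiplicities.

Proof. As for the sums of two primes in `MP_967f73_nt.AliquotSums` (starting file): `m = k p` with the large prime factor `p`,
so `g(m) = A p + B` runs through a residue class modulo `A`, `A ≤ x^(7/10 - ρ)`, and the theorems of the starting files on this
problem in the residue classes of every modulus (`AsymptoticEveryModulus`, `EveryModulusSevenTenths`) are applied for every `k`.
-/

set_option autoImplicit false

namespace Pool.Agent.Results.MP_73b532_nt.AliquotSums

open Finset Filter Topology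
open Pool.Agent.U365.AQG (Moderate LargePrime AlmostAll aliquot)

/-- The asymptotic formula in all windows, and a partition with a small `p > √m`. -/
abbrev Asym := Pool.Agent.Results.MP_73b532_nt.AsymptoticEveryModulus.Holds

/-- The lower bound in all windows, and a partition with a small `p > √m`. -/
abbrev Low := Pool.Agent.Results.MP_73b532_nt.EveryModulusSevenTenths.Holds

/-- The positive even integer `h` has a partition as required by the question, `h = p + q` with primes `p`, `q` and
`√h < p ≤ h / 2`, and all windows between `√h` and `h / 2` of a length of at least `h / (log h)^W` contain at least `1 / 21` of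
the expected number of them. -/
def Knjzek (W h : ℕ) : Prop :=
  0 < h ∧ Even h ∧ (∃ p q : ℕ, p.Prime ∧ q.Prime ∧ p + q = h ∧ √(h : ℝ) < p ∧ (p : ℝ) ≤ (h : ℝ) / 2) ∧ Low W h


theorem ebt_asym (ε : ℝ) (hε : 0 < ε) (W : ℕ) (hW : 1 ≤ W) :
    Pool.Agent.N733.AQ.EBT (2 / 3) (fun n => 2 ∣ n → Asym ε W n) :=
  Pool.Agent.N733.AQ.ebt_of (2 / 3) (Asym ε W) (fun ρ hρ A T =>
    Pool.Agent.Results.MP_73b532_nt.AsymptoticEveryModulus.result ε ρ hε hρ W hW A T)

theorem ebt_low (W : ℕ) (hW : 1 ≤ W) : Pool.Agent.N733.AQ.EBT (7 / 10) (fun n => 2 ∣ n → Low W n) :=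
  Pool.Agent.N733.AQ.ebt_of (7 / 10) (Low W) (fun ρ hρ A T =>
    Pool.Agent.Results.MP_73b532_nt.EveryModulusSevenTenths.result ρ hρ A T W hW)

theorem knjzek_of {W h : ℕ} (hh : 1 ≤ h) (he : Even h) (hl : Low W h) : Knjzek W h := by
  refine ⟨by omega, he, ?_, hl⟩
  obtain ⟨p, h1, h2, h3, h4, -⟩ := hl.2
  refine ⟨p, h - p, h1, h2, ?_, h3, h4⟩
  have hp : (p : ℝ) ≤ h := h4.trans (by
    have : (0 : ℝ) ≤ h := Nat.cast_nonneg _
    linarith)
  have : p ≤ h := by exact_mod_cast hp
  omega

theorem both (W : ℕ) (hW : 1 ≤ W) (ρ : ℝ) (hρ : 0 < ρ) :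
    AlmostAll (fun m => Even m → LargePrime (3 / 10 + ρ) m → Knjzek W (aliquot m) ∧ Knjzek W (m - Nat.totient m)) := by
  have h := Pool.Agent.U365.AQG.both (7 / 10) (by norm_num) le_rfl (Low W) (ebt_low W hW) 1 ρ hρ
  rw [show (1 - 7 / 10 : ℝ) = 3 / 10 by norm_num] at h
  refine Pool.Agent.U365.AQG.almostAll_and h h 0 (fun m _ h1 _ he hp => ?_)
  obtain ⟨⟨a1, a2, a3⟩, b1, b2, b3⟩ := h1 he hp
  exact ⟨knjzek_of a1 a2 a3, knjzek_of b1 b2 b3⟩

open Classical in
/-- **The conjecture of Goldbach and Knjzek for aliquot sums, cototients and similar functions.** Let `f` be a positive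
multiplicative function of moderate growth with `f p = p + c`, `c ≠ 0`, for all large primes `p`, let `α`, `β` be nonzero
integers, `g(m) = α m + β f(m)`, `W ≥ 1` and `ρ > 0`. For almost all `m` with a prime factor `≥ m^(1/3 + ρ)` and
`g(m) ≥ m / (log m)^C` the integer `2 n = g(m)`, if it is even, has the predicted number of partitions in all windows between
`√(2 n)` and `n`; with a prime factor `≥ m^(3/10 + ρ)` at least `1 / 21` of it; in both cases there is a partition with
`√(2 n) < p ≤ √(2 n) + 2 n / (log 2 n)^W`. Euler's function and the sum of the divisors are examples. For almost all even `m`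
with a prime factor `≥ m^(3/10 + ρ)` the assertion of the question holds for the sum `s(m)` of the proper divisors and for the
cototient `m - φ(m)`; this is so for a proportion of at least `7/10` of the even integers `m`. -/
theorem result :
    (∀ (f : ℕ → ℕ) (c α β : ℤ) (C W : ℕ) (ρ ε : ℝ), Moderate f c → c ≠ 0 → α ≠ 0 → β ≠ 0 → 1 ≤ W → 0 < ρ → 0 < ε →
      AlmostAll (fun m => LargePrime (1 / 3 + ρ) m → (m : ℝ) / Real.log m ^ C ≤ ((α * m + β * f m : ℤ) : ℝ) →
        Even (α * m + β * f m) → Asym ε W (α * m + β * f m).toNat)) ∧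
    (∀ (f : ℕ → ℕ) (c α β : ℤ) (C W : ℕ) (ρ : ℝ), Moderate f c → c ≠ 0 → α ≠ 0 → β ≠ 0 → 1 ≤ W → 0 < ρ →
      AlmostAll (fun m => LargePrime (3 / 10 + ρ) m → (m : ℝ) / Real.log m ^ C ≤ ((α * m + β * f m : ℤ) : ℝ) →
        Even (α * m + β * f m) → Low W (α * m + β * f m).toNat)) ∧
    (Moderate Nat.totient (-1) ∧ Moderate (fun m => ∑ d ∈ m.divisors, d) 1) ∧
    (∀ (W : ℕ) (ρ : ℝ), 1 ≤ W → 0 < ρ → AlmostAll (fun m => Even m → LargePrime (3 / 10 + ρ) m →
      Knjzek W (aliquot m) ∧ Knjzek W (m - Nat.totient m))) ∧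
    ∀ (W : ℕ) (δ : ℝ), 1 ≤ W → δ < 7 / 10 → ∃ N₀ : ℕ, ∀ N : ℕ, N₀ ≤ N → δ * (N / 2) ≤
      (((Icc 1 N).filter (fun m => Even m ∧ Knjzek W (aliquot m) ∧ Knjzek W (m - Nat.totient m))).card : ℝ) := by
  refine ⟨fun f c α β C W ρ ε hf hc hα hβ hW hρ hε => ?_, fun f c α β C W ρ hf hc hα hβ hW hρ => ?_,
    ⟨Pool.Agent.U365.AQG.moderate_totient, Pool.Agent.U365.AQG.moderate_sigma⟩,
    fun W ρ hW hρ => both W hW ρ hρ, fun W δ hW hδ => ?_⟩
  · have h := Pool.Agent.U365.AQG.general (2 / 3) (by norm_num) (by norm_num) (Asym ε W) (ebt_asym ε hε W hW)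
      f c α β C ρ hf hc hα hβ hρ
    rwa [show (1 - 2 / 3 : ℝ) = 1 / 3 by norm_num] at h
  · have h := Pool.Agent.U365.AQG.general (7 / 10) (by norm_num) (by norm_num) (Low W) (ebt_low W hW)
      f c α β C ρ hf hc hα hβ hρ
    rwa [show (1 - 7 / 10 : ℝ) = 3 / 10 by norm_num] at h
  · obtain ⟨N₀, h⟩ := Pool.Agent.U365.AQG.density (7 / 10) (by norm_num)
      (fun m => Knjzek W (aliquot m) ∧ Knjzek W (m - Nat.totient m)) (fun η hη => by
        rw [show (1 - 7 / 10 : ℝ) = 3 / 10 by norm_num]
        exact both W hW η hη) δ hδ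
    exact ⟨N₀, fun N hN => (h N hN).trans (Nat.cast_le.2 (Pool.Agent.U365.AQG.card_mono' (fun m hm => hm)))⟩

end Pool.Agent.Results.MP_73b532_nt.AliquotSums
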