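import Pool.Agent.Results.MP_73b532_nt.NearDigitFamilies
import Pool.Agent.U837.RP.Mul

/-!
# The Goldbach–Knjzek conjecture, in all long windows, for all even integers near the values of ALL small integer polynomials in
# several variables

For almost all points `n = (n_1, ..., n_k)` of the cube `[1, x] ^ k` the assertion of the problem, in all long windows and with
the number of partitions predicted by Hardy and Littlewood, holds for ALL the positive even integers `2 m` within
`log ^ W x` of the values `F(n)` of ALL the nonconstant integer polynomials `F` in `k` variables of degree at most `D` with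
coefficients of absolute value at most `log ^ W x`: for example near `n_1 n_2 ⋯ n_k`, near `n_1 ^ 4 + n_2 ^ 4` and near the
discriminant `n_1 ^ 2 - 4 n_2 n_3`, simultaneously. The values form thin sets: there are `x ^ k` points and the values have the
size `x ^ deg F`.

Definitions used from `Pool.Agent.H560R3.GB` (starting files): `sing m`: the singular series
`2 C₂ ∏_{p ∣ m, p > 2} (p - 1) / (p - 2)`, where `C₂ = ∏_{p > 2} (1 - 1 / (p - 1) ^ 2)`.

Method: for a polynomial `F` of degree `d ≥ 1` there is a direction `a ∈ {0, ..., D} ^ k` (Combinatorial Nullstellensatz) such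
that `F` restricted to the lines `t ↦ n + t a` is a polynomial of degree `d` in `t` with a small leading coefficient, but with
arbitrarily large other coefficients. By the inverse theorem for Weyl sums (`H373R2/NB/Weyl`) the values of such a
polynomial at consecutive integers have a minimal additive energy of high order, uniformly in the other coefficients
(`Pool.Agent.U837.RP.poly_near`), and the theorem of the starting files on thin families of this kind
(`R459.near_even`) applies on every line. The number of the small polynomials is only a power of the logarithm.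
-/

set_option autoImplicit false

namespace Pool.Agent.Results.MP_73b532_nt.SeveralVariables

open Finset
open Pool.Agent.H560R3.GB (sing)

open Classical in
/-- The number of the primes `p` in the window `(y₁, y₂]` with `√(2 n) < p ≤ n` for which `2 n - p` is a prime. -/
noncomputable def K (n y₁ y₂ : ℕ) : ℕ :=
  ((Ioc y₁ y₂).filter (fun p : ℕ => p.Prime ∧ (2 * n - p).Prime ∧ √((2 * n : ℕ) : ℝ) < p ∧ p ≤ n)).card

/-- For all windows `(y₁, y₂] ⊆ (0, n]` of length at least `n / log ^ A n` there is a prime `p` with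
`√(2 n) < p ≤ n` and `y₁ < p ≤ y₂` for which `2 n - p` is a prime, and the number of these primes is
`sing (2 n) * (y₂ - y₁) / log ^ 2 (2 n)` up to a relative error of at most `ε`. -/
def Holds (ε : ℝ) (A n : ℕ) : Prop :=
  ∀ y₁ y₂ : ℕ, y₁ < y₂ → y₂ ≤ n → (n : ℝ) / Real.log n ^ A ≤ (y₂ : ℝ) - y₁ →
    (∃ p : ℕ, p.Prime ∧ (2 * n - p).Prime ∧ √((2 * n : ℕ) : ℝ) < p ∧ p ≤ n ∧ y₁ < p ∧ p ≤ y₂) ∧
    |(K n y₁ y₂ : ℝ) - sing (2 * n) * (((y₂ : ℝ) - y₁) / Real.log (2 * n : ℕ) ^ 2)| ≤
      ε * (sing (2 * n) * (((y₂ : ℝ) - y₁) / Real.log (2 * n : ℕ) ^ 2))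

lemma holds_of (A : ℕ) (ε : ℝ) (hε : 0 < ε) : ∃ m₀ : ℕ, ∀ n : ℕ, m₀ ≤ 2 * n →
    Pool.Agent.W93.PG.WinP (min ε (1 / 2) / 2) (A + 1) (2 * n) → Holds ε A n := MP_73b532_nt.NearDigitFamilies.holds_of A ε hε

/-- `F` is not constant, has a total degree of at most `D`, and its coefficients have an absolute value of at most `r`. -/
def Small {k : ℕ} (F : MvPolynomial (Fin k) ℤ) (D : ℕ) (r : ℝ) : Prop :=
  1 ≤ F.totalDegree ∧ F.totalDegree ≤ D ∧ ∀ s, |((F.coeff s : ℤ) : ℝ)| ≤ r

/-- The value of `F` at the point `n`. -/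
noncomputable def value {k : ℕ} (F : MvPolynomial (Fin k) ℤ) (n : Fin k → ℕ) : ℤ :=
  MvPolynomial.eval (fun i => (n i : ℤ)) F

open Classical in
/-- The number of the points `n` of `{1, ..., x} ^ k` for which `Holds` fails for some `m > 0` with `|2 m - F(n)| ≤ log ^ W x`
and some `F` with `Small F D (log ^ W x)`. -/
noncomputable def exceptions (k D : ℕ) (ε : ℝ) (A : ℕ) (W x : ℕ) : ℕ :=
  ((Fintype.piFinset (fun _ : Fin k => Icc 1 x)).filter (fun n : Fin k → ℕ => ∃ F : MvPolynomial (Fin k) ℤ,
    Small F D (Real.log x ^ W) ∧ ∃ m : ℕ, 0 < m ∧ |((2 * m : ℕ) : ℝ) - value F n| ≤ Real.log x ^ W ∧ ¬ Holds ε A m)).card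

/-- Let `k`, `D`, `A`, `W`, `U` and `ε > 0` be fixed, and let `x` be large. For all but at most `x ^ k / log ^ U x` of the points `n` of
`{1, ..., x} ^ k`, and for ALL the nonconstant integer polynomials `F` in `k` variables of total degree at most `D` with
coefficients of absolute value at most `log ^ W x`, ALL the even integers `2 m > 0` with `|2 m - F(n)| ≤ log ^ W x` satisfy the
assertion of the problem in every long window: for all windows `(y₁, y₂] ⊆ (0, m]` of length at least `m / log ^ A m`
there is a prime `p` with `√(2 m) < p ≤ m` and `y₁ < p ≤ y₂` for which `2 m - p` is a prime, and the number of these primes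
is `sing (2 m) * (y₂ - y₁) / log ^ 2 (2 m)` up to a relative error of at most `ε`. -/
theorem result (k D A W U : ℕ) (ε : ℝ) (hε : 0 < ε) :
    ∃ x₀ : ℕ, ∀ x : ℕ, x₀ ≤ x → (exceptions k D ε A W x : ℝ) ≤ (x : ℝ) ^ k / Real.log x ^ U := by
  classical
  obtain ⟨m₀, hm₀⟩ := holds_of A ε hε
  obtain ⟨x₀, h0⟩ := Pool.Agent.U837.RP.multi_values k D (A + 1) W U m₀ (min ε (1 / 2) / 2)
    (div_pos (lt_min hε (by norm_num)) (by norm_num)) (fun m => Holds ε A (m / 2)) (fun m h1 h2 h3 => by
      obtain ⟨n, rfl⟩ := h2
      have e : 2 * n / 2 = n := by omega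
      rw [e]
      exact hm₀ n h1 h3)
  refine ⟨x₀, fun x hx => ?_⟩
  unfold exceptions
  refine h0 x hx _ ?_
  intro n hn
  rw [mem_filter, Fintype.mem_piFinset] at hn
  obtain ⟨h1, F, ⟨F1, F2, F3⟩, m, m1, m3, m4⟩ := hn
  refine ⟨h1, F, F1, F2, F3, 2 * m, by omega, even_two_mul m, m3, ?_⟩
  have e : 2 * m / 2 = m := by omega
  rw [e]
  exact m4

end Pool.Agent.Results.MP_73b532_nt.SeveralVariables
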