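import Pool.Agent.U215.Kn.Main

/-!
Simultaneous Goldbach partitions `2 n_j = p + q_j` of `r` even numbers with one common smaller summand
`p` in the range of the Goldbach-Knjzek conjecture, even `p ≤ n_j / K`, where the prime `p` is isolated
on the scale of any given multiple of the average gap.
-/

set_option autoImplicit false

open Finset Filter Topology

namespace Pool.Agent.Results.MP_73b532_nt.SimultaneousPartitions

/-- Every prime `q ≠ p` satisfies `|q - p| > R`. -/
def Isolated (R : ℝ) (p : ℕ) : Prop := ∀ q : ℕ, q.Prime → q ≠ p → R < |(q : ℝ) - p|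

/-- The smallest of the integers `n_1, ..., n_r`. -/
noncomputable def smallest {r : ℕ} (n : Fin r → ℕ) : ℕ := ⨅ j, n j

open Classical in
/-- The primes `p` with `√(2 n_j) < p ≤ n_j / K` and `2 n_j - p` prime for all `j` such that all primes
other than `p` are at a distance of more than `Λ log (2 m)` from `p`, `m` the smallest of the `n_j`. -/
noncomputable def partitions {r : ℕ} (K : ℕ) (Λ : ℝ) (n : Fin r → ℕ) : Finset ℕ :=
  (range (smallest n + 1)).filter (fun p => p.Prime ∧
    (∀ j, √(2 * n j : ℝ) < p ∧ K * p ≤ n j ∧ (2 * n j - p).Prime) ∧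
    Isolated (Λ * Real.log (2 * smallest n)) p)

open Classical in
/-- The number of the residue classes `b` modulo `l` which are `0` or a zero of one of the forms
`2 n_j - b` modulo `l`. -/
noncomputable def excluded {r : ℕ} (n : Fin r → ℕ) (l : ℕ) : ℕ :=
  ((range l).filter (fun b : ℕ => b = 0 ∨ ∃ j, (l : ℤ) ∣ 2 * (n j : ℤ) - b)).card

/-- The singular series of Hardy and Littlewood of the forms `p, 2 n_1 - p, ..., 2 n_r - p`: the
limit superior of the products over the primes `l ≤ y`. -/
noncomputable def singularSeries {r : ℕ} (n : Fin r → ℕ) : ℝ :=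
  limsup (fun y : ℕ => ∏ l ∈ (range (y + 1)).filter Nat.Prime,
    (1 - (excluded n l : ℝ) / l) / (1 - 1 / (l : ℝ)) ^ (r + 1)) atTop

open Classical in
/-- The `r`-tuples of integers in `[1, x]` with fewer than `(c / K) 𝔖(n) m / (log 2m) ^ (r + 1)` such
primes. -/
noncomputable def exceptions (r K : ℕ) (Λ c : ℝ) (x : ℕ) : Finset (Fin r → ℕ) :=
  (Fintype.piFinset (fun _ => Icc 1 x)).filter (fun n => ((partitions K Λ n).card : ℝ) <
    c / K * (singularSeries n * (smallest n / Real.log (2 * smallest n) ^ (r + 1))))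

lemma isol_of (R : ℝ) (p : ℕ) (h : Pool.Agent.TH882.IS.Isol R p) : Isolated R p := by
  intro q hq hqp
  by_contra hcon
  push Not at hcon
  rw [abs_le] at hcon
  exact hqp (h q hq (by linarith [hcon.2]) (by linarith [hcon.1]))

lemma iInf_two {r : ℕ} (hr : 1 ≤ r) (n : Fin r → ℕ) : (⨅ j, 2 * n j) = 2 * ⨅ j, n j := by
  have hne : Nonempty (Fin r) := ⟨⟨0, by omega⟩⟩
  obtain ⟨j0, hj0⟩ := exists_eq_ciInf_of_finite (f := n)
  apply le_antisymm
  · rw [← hj0]
    exact ciInf_le (f := fun j => 2 * n j) (OrderBot.bddBelow _) j0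
  · apply le_ciInf
    intro j
    exact Nat.mul_le_mul_left _ (ciInf_le (OrderBot.bddBelow _) j)

lemma sing_two {r : ℕ} (n : Fin r → ℕ) :
    Pool.Agent.U215.Sim.SS (fun _ => -1) (fun j => 2 * n j) = singularSeries n := by
  unfold Pool.Agent.U215.Sim.SS singularSeries
  congr 1
  funext y
  unfold Pool.Agent.U215.Sim.sing
  apply prod_congr rfl
  intro l _
  unfold Pool.Agent.U215.Sim.fac
  congr 4
  unfold Pool.Agent.U215.Sim.nu excluded
  congr 1
  apply filter_congr
  intro b _
  apply or_congr Iff.rfl
  apply exists_congr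
  intro j
  push_cast
  rw [neg_one_mul, ← sub_eq_add_neg]

/-- For every `r ≥ 1` and `Λ > 0` there is `c > 0` such that for all `K ≥ 1` almost all `r`-tuples
`(2 n_1, ..., 2 n_r)` of even numbers have at least `(c / K) 𝔖(n) m / (log 2m) ^ (r + 1)` simultaneous
partitions `2 n_j = p + q_j` with one isolated prime `p`, `√(2 n_j) < p ≤ n_j / K` for all `j`. -/
theorem result (r : ℕ) (hr : 1 ≤ r) (Λ : ℝ) (hΛ : 0 < Λ) : ∃ c : ℝ, 0 < c ∧ ∀ K : ℕ, 1 ≤ K →
    Tendsto (fun x : ℕ => ((exceptions r K Λ c x).card : ℝ) / (x : ℝ) ^ r) atTop (𝓝 0) := by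
  classical
  obtain ⟨c, hc, h⟩ := Pool.Agent.U215.Kn.knj hr Λ hΛ
  refine ⟨c, hc, fun K hK => ?_⟩
  have h1 := h (fun _ => -1) (fun _ => Or.inr rfl) (2 * K) (by omega)
  have h2 := (h1.comp (tendsto_id.const_mul_atTop' (by norm_num : 0 < 2))).const_mul ((2 : ℝ) ^ r)
  rw [mul_zero] at h2
  refine squeeze_zero (fun x => by positivity) (fun x => ?_) h2
  simp only [Function.comp, id]
  have e0 : ((2 * x : ℕ) : ℝ) ^ r = 2 ^ r * (x : ℝ) ^ r := by
    push_cast
    rw [mul_pow]
  rw [e0, ← mul_div_assoc, mul_div_mul_left _ _ (by positivity)]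
  apply div_le_div_of_nonneg_right _ (by positivity)
  apply Nat.cast_le.2
  apply card_le_card_of_injOn (fun n j => 2 * n j)
  · intro n hn
    have hn' := mem_coe.1 hn
    unfold exceptions at hn'
    rw [mem_filter, Fintype.mem_piFinset] at hn'
    rw [mem_coe, mem_filter, Fintype.mem_piFinset]
    refine ⟨fun j => ?_, ?_⟩
    · have := hn'.1 j
      rw [mem_Icc] at this ⊢
      simp only
      omega
    · rw [iInf_two hr, sing_two]
      unfold smallest at hn'
      set m : ℕ := ⨅ j, n j with hm
      have e1 : ((Pool.Agent.U215.Kn.KReps (2 * K) (fun _ => -1) Λ (fun j => 2 * n j)).card : ℝ) ≤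
          ((partitions K Λ n).card : ℝ) := by
        apply Nat.cast_le.2
        apply card_le_card
        intro p hp
        unfold Pool.Agent.U215.Kn.KReps at hp
        unfold partitions smallest
        rw [mem_filter, mem_range, iInf_two hr, ← hm] at hp
        rw [mem_filter, mem_range, ← hm]
        obtain ⟨g1, g2, g3, g4, g5⟩ := hp
        have hp0 : (0 : ℝ) < p := by exact_mod_cast g3.pos
        have hK' : ∀ j, K * p ≤ n j := fun j => by
          have := (g2 j).2
          simp only at this
          have e2 : 2 * K * p = 2 * (K * p) := by ring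
          omega
        have hpm : ∀ j, p ≤ n j := fun j => by
          have := hK' j
          nlinarith
        have hne : Nonempty (Fin r) := ⟨⟨0, by omega⟩⟩
        have hpm' : p ≤ m := le_ciInf hpm
        refine ⟨by omega, g3, fun j => ⟨?_, hK' j, ?_⟩, ?_⟩
        · rw [Real.sqrt_lt' hp0]
          exact_mod_cast (g2 j).1
        · have e2 := g4 j
          have e3 : (((2 * n j : ℕ) : ℤ) + -1 * (p : ℤ)).toNat = 2 * n j - p := by
            have := hpm j
            omega
          rwa [e3] at e2
        · apply isol_of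
          have e2 : ((2 * m : ℕ) : ℝ) = 2 * (m : ℝ) := by push_cast; ring
          rwa [e2] at g5
      refine lt_of_le_of_lt e1 (lt_of_lt_of_le hn'.2 (le_of_eq ?_))
      push_cast
      have hK0 : (K : ℝ) ≠ 0 := by
        have : K ≠ 0 := by omega
        exact_mod_cast this
      field_simp
  · intro n _ n' _ hnn
    funext j
    have := congrFun hnn j
    simp only at this
    omega

end Pool.Agent.Results.MP_73b532_nt.SimultaneousPartitions
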