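import Pool.Agent.U710.LE.Q
import Pool.Agent.N625.DY.I
import Pool.Agent.R459.C2
import Pool.Agent.H560R3.GB.Defs

/-!
# The Goldbach-Knjzek partitions near the values of functions which grow faster than any power

Definitions used (starting file `Pool.Agent.H560R3.GB.Defs`): `sing m`: the singular series
`2 C₂ ∏_{p ∣ m, p > 2} (p - 1) / (p - 2)`, where `C₂` is the twin prime constant `∏_{p > 2} (1 - 1 / (p - 1) ^ 2)`.

Method (`Pool.Agent.U710.LE`): exponential sums over the integer parts of `exp (α (log n) ^ γ + β)`, with the mean value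
theorem of Vinogradov for a degree which tends to infinity. The derivatives of these functions are controlled by recursive
inequalities for regular functions; there are frequencies for which one has to use a large degree (of the order of
`log N / log n`), and a range in which the derivatives of order `1` to `4` and the Taylor coefficients of the logarithm
of the function decide. The passage from exponential sums to Goldbach representations in windows is from the starting files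
(`Pool.Agent.W93`, `Pool.Agent.TH872`, `Pool.Agent.N193.PS`, and `Pool.Agent.N625.DY` (helper625)).
-/

set_option autoImplicit false

namespace Pool.Agent.Results.MP_73b532_nt.SubexponentialSequences

open Finset Filter Pool.Agent.H560R3.GB

open Classical in
/-- The number of the primes `p` in the window `(y₁, y₂]` with `√(2 n) < p ≤ n` for which `2 n - p` is a prime. -/
noncomputable def K (n y₁ y₂ : ℕ) : ℕ :=
  ((Ioc y₁ y₂).filter (fun p : ℕ => p.Prime ∧ (2 * n - p).Prime ∧ √((2 * n : ℕ) : ℝ) < p ∧ p ≤ n)).card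

/-- For all windows `(y₁, y₂] ⊆ (0, n]` of length at least `n / log ^ A n` there is a prime `p` with
`√(2 n) < p ≤ n` and `y₁ < p ≤ y₂` for which `2 n - p` is a prime, and the number of these primes is
`sing (2 n) * (y₂ - y₁) / log ^ 2 (2 n)` up to a relative error of at most `ε`. -/
def Holds (ε : ℝ) (A n : ℕ) : Prop :=
  ∀ y₁ y₂ : ℕ, y₁ < y₂ → y₂ ≤ n → (n : ℝ) / Real.log n ^ A ≤ (y₂ : ℝ) - y₁ →
    (∃ p : ℕ, p.Prime ∧ (2 * n - p).Prime ∧ √((2 * n : ℕ) : ℝ) < p ∧ p ≤ n ∧ y₁ < p ∧ p ≤ y₂) ∧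
    |(K n y₁ y₂ : ℝ) - sing (2 * n) * (((y₂ : ℝ) - y₁) / Real.log (2 * n : ℕ) ^ 2)| ≤
      ε * (sing (2 * n) * (((y₂ : ℝ) - y₁) / Real.log (2 * n : ℕ) ^ 2))

/-- The sequence: `S α β γ n = ⌊exp (α (log n) ^ γ + β)⌋`. -/
noncomputable def S (α β γ : ℝ) (n : ℕ) : ℕ := ⌊Real.exp (α * Real.log n ^ γ + β)⌋₊

/-- All the positive even integers `m = 2 l` at a distance of at most `log ^ W n` from `c + κ S(n)` satisfy
`Holds ε A l`. -/
def Near (α β γ : ℝ) (κ c : ℤ) (A W : ℕ) (ε : ℝ) (n : ℕ) : Prop :=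
  ∀ m : ℤ, |(m : ℝ) - (c + κ * (S α β γ n : ℕ))| ≤ Real.log n ^ W → 0 < m → Even m → Holds ε A (m.toNat / 2)

lemma K_le (n y₁ y₂ : ℕ) : K n y₁ y₂ ≤ Pool.Agent.W93.PG.cnt (2 * n) y₁ y₂ := by
  classical
  unfold K Pool.Agent.W93.PG.cnt
  apply card_le_card
  intro p hp
  rw [mem_filter] at hp ⊢
  exact ⟨hp.1, hp.2.1, hp.2.2.1⟩

lemma K_ge (n y₁ y₂ : ℕ) (hy : y₂ ≤ n) :
    (Pool.Agent.W93.PG.cnt (2 * n) y₁ y₂ : ℝ) ≤ K n y₁ y₂ + (√((2 * n : ℕ) : ℝ) + 2) := by
  classical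
  have h1 : (Ioc y₁ y₂).filter (fun p => p.Prime ∧ (2 * n - p).Prime) ⊆
      (Ioc y₁ y₂).filter (fun p : ℕ => p.Prime ∧ (2 * n - p).Prime ∧ √((2 * n : ℕ) : ℝ) < p ∧ p ≤ n) ∪
      range (⌊√((2 * n : ℕ) : ℝ)⌋₊ + 1) := by
    intro p hp
    rw [mem_filter, mem_Ioc] at hp
    rw [mem_union, mem_filter, mem_Ioc, mem_range]
    obtain ⟨⟨a1, a2⟩, a3, a4⟩ := hp
    by_cases h2 : √((2 * n : ℕ) : ℝ) < p
    · exact Or.inl ⟨⟨a1, a2⟩, a3, a4, h2, a2.trans hy⟩
    · right
      rw [Nat.lt_succ_iff]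
      exact Nat.le_floor (not_lt.1 h2)
  have h3 := (card_le_card h1).trans (card_union_le _ _)
  rw [card_range] at h3
  have h4 : (Pool.Agent.W93.PG.cnt (2 * n) y₁ y₂ : ℝ) ≤ K n y₁ y₂ + ((⌊√((2 * n : ℕ) : ℝ)⌋₊ : ℝ) + 1) := by
    unfold Pool.Agent.W93.PG.cnt K
    exact_mod_cast h3
  have h5 := Nat.floor_le (Real.sqrt_nonneg ((2 * n : ℕ) : ℝ))
  linarith

lemma holds_of (A : ℕ) (ε : ℝ) (hε : 0 < ε) : ∃ m₀ : ℕ, ∀ n : ℕ, m₀ ≤ 2 * n →
    Pool.Agent.W93.PG.WinP (min ε (1 / 2) / 2) (A + 1) (2 * n) → Holds ε A n := by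
  obtain ⟨ε', hε'⟩ : ∃ ε', ε' = min ε (1 / 2) := ⟨_, rfl⟩
  have he0 : 0 < ε' := by rw [hε']; exact lt_min hε (by norm_num)
  have he1 : ε' ≤ ε := by rw [hε']; exact min_le_left _ _
  have he2 : ε' ≤ 1 / 2 := by rw [hε']; exact min_le_right _ _
  obtain ⟨n1, h1⟩ := Pool.Agent.H373R2.T7.ev_L' 3
  obtain ⟨n2, h2⟩ := Pool.Agent.H373R2.T7.ev_log' (A + 2) (10 / ε')
  rw [← hε']
  refine ⟨n1 + n2 + 6, fun n hn hw => ?_⟩
  have hL := h1 (2 * n) (by omega)
  have hc := h2 (2 * n) (by omega)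
  intro y₁ y₂ hy hyn hl
  have hn3 : (3 : ℝ) ≤ n := by exact_mod_cast (by omega : 3 ≤ n)
  obtain ⟨L, hLd⟩ : ∃ L, L = Real.log ((2 * n : ℕ) : ℝ) := ⟨_, rfl⟩
  obtain ⟨R, hR⟩ : ∃ R, R = √((2 * n : ℕ) : ℝ) := ⟨_, rfl⟩
  have hR2 : R * R = 2 * n := by
    rw [hR, Real.mul_self_sqrt (Nat.cast_nonneg _)]
    push_cast
    ring
  have hR1 : 1 ≤ R := by
    rw [hR]
    apply Real.one_le_sqrt.2
    push_cast
    linarith
  rw [← hLd] at hL hc
  rw [← hR] at hc
  have hlog0 : 1 ≤ Real.log (n : ℝ) := by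
    rw [Real.le_log_iff_exp_le (by linarith)]
    linarith [Real.exp_one_lt_d9]
  have hlogL : Real.log (n : ℝ) ≤ L := by
    rw [hLd]
    exact Real.log_le_log (by linarith) (by exact_mod_cast (by omega : n ≤ 2 * n))
  have hyr : (y₁ : ℝ) < y₂ := by exact_mod_cast hy
  obtain ⟨D, hD⟩ : ∃ D : ℝ, D = (y₂ : ℝ) - y₁ := ⟨_, rfl⟩
  have hD1 : n / L ^ A ≤ D := by
    rw [hD]
    refine le_trans ?_ hl
    apply div_le_div_of_nonneg_left (by linarith) (by positivity)
    exact pow_le_pow_left₀ (by linarith) hlogL _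
  have hwin := hw y₁ y₂ hy (by omega) (by
    rw [← hLd, ← hD]
    refine le_trans ?_ hD1
    have e : ((2 * n : ℕ) : ℝ) = 2 * n := by push_cast; ring
    rw [e, pow_succ, div_le_div_iff₀ (by positivity) (by positivity)]
    have : 0 ≤ (n : ℝ) * L ^ A := by positivity
    nlinarith)
  rw [← hLd, ← hD] at hwin
  obtain ⟨M, hM⟩ : ∃ M : ℝ, M = sing (2 * n) * (D / L ^ 2) := ⟨_, rfl⟩
  have e1 : sing (2 * n) * D / L ^ 2 = M := by rw [hM]; ring
  rw [e1] at hwin
  rw [← hLd, ← hD, ← hM]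
  have hs := Pool.Agent.R459.sing_num (2 * n)
  have hD0 : 0 < D := by rw [hD]; linarith
  have hQ0 : 0 < D / L ^ 2 := by positivity
  have hM1 : 327 / 250 * (D / L ^ 2) ≤ M := by
    rw [hM]
    exact mul_le_mul_of_nonneg_right hs hQ0.le
  have hbig : R + 2 ≤ ε' / 2 * M := by
    have h3 : n / L ^ (A + 2) ≤ D / L ^ 2 := by
      rw [pow_add, ← div_div]
      exact div_le_div_of_nonneg_right hD1 (by positivity)
    have h4 : 10 / ε' * L ^ (A + 2) ≤ R := hc
    have h5 : 5 * R ≤ ε' * (n / L ^ (A + 2)) := by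
      rw [mul_div_assoc', le_div_iff₀ (by positivity)]
      have h6 : 10 * L ^ (A + 2) ≤ ε' * R := by
        have h7 : ε' * (10 / ε' * L ^ (A + 2)) ≤ ε' * R := mul_le_mul_of_nonneg_left h4 he0.le
        have h8 : ε' * (10 / ε' * L ^ (A + 2)) = 10 * L ^ (A + 2) := by field_simp
        rw [← h8]
        exact h7
      have h9 : R * (10 * L ^ (A + 2)) ≤ R * (ε' * R) := mul_le_mul_of_nonneg_left h6 (by linarith)
      have h10 : R * (ε' * R) = ε' * (2 * n) := by rw [← hR2]; ring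
      nlinarith
    have h11 : ε' * (n / L ^ (A + 2)) ≤ ε' * (D / L ^ 2) := mul_le_mul_of_nonneg_left h3 he0.le
    have h12 : ε' * (327 / 250 * (D / L ^ 2)) ≤ ε' * M := mul_le_mul_of_nonneg_left hM1 he0.le
    nlinarith
  have hK1 : (K n y₁ y₂ : ℝ) ≤ Pool.Agent.W93.PG.cnt (2 * n) y₁ y₂ := by exact_mod_cast K_le n y₁ y₂
  have hK2 := K_ge n y₁ y₂ hyn
  rw [← hR] at hK2
  have hM0 : 0 < M := by linarith [mul_pos (by norm_num : (0 : ℝ) < 327 / 250) hQ0]
  have hfin : |(K n y₁ y₂ : ℝ) - M| ≤ ε' * M := by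
    rw [abs_le] at hwin ⊢
    constructor <;> linarith [hwin.1, hwin.2]
  refine ⟨?_, hfin.trans (mul_le_mul_of_nonneg_right he1 hM0.le)⟩
  have hpos : 0 < K n y₁ y₂ := by
    have h3 := (abs_le.1 hfin).1
    have h4 : (0 : ℝ) < K n y₁ y₂ := by nlinarith
    exact_mod_cast h4
  classical
  unfold K at hpos
  obtain ⟨p, hp⟩ := card_pos.1 hpos
  rw [mem_filter, mem_Ioc] at hp
  exact ⟨p, hp.2.1, hp.2.2.1, hp.2.2.2.1, hp.2.2.2.2, hp.1.1, hp.1.2⟩

open Classical in
/-- Let `α > 0`, `β`, `1 < γ < 3/2`, and let `S(n) = ⌊exp (α (log n) ^ γ + β)⌋`, a sequence which grows faster than any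
power of `n` (it has only `X ^ o(1)` members up to `X`). Let `κ ≠ 0`, `A`, `W`, `U`, `B` be integers, and let `ε > 0`.

(1) For all large `y`, all `h` with `y / (log y) ^ A ≤ h ≤ y / log y` and all integers `c` with `|c| ≤ B S(y)`: for all the
integers `n` in `(y - h, y]` with at most `h / (log y) ^ U` exceptions, every positive even integer `m = 2 l` at a distance of at
most `(log n) ^ W` from `c + κ S(n)` has the following property: for all windows `(y₁, y₂] ⊆ (0, l]` of a length of at least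
`l / (log l) ^ A` there is a prime `p` in the window with `√m < p ≤ l` for which `m - p` is a prime, and the number of these `p`
is as predicted, up to a relative error of at most `ε`.

(2) For all integers `c` the same holds for all the `n ≤ X` with at most `X / (log X) ^ U` exceptions, for all large `X`. -/
theorem result (α β γ : ℝ) (hα : 0 < α) (hγ1 : 1 < γ) (hγ2 : γ < 3 / 2) (κ : ℤ) (hκ : κ ≠ 0) (A W U : ℕ) (ε : ℝ)
    (hε : 0 < ε) :
    (∀ B : ℕ, ∀ᶠ y : ℕ in atTop, ∀ h : ℕ, (y : ℝ) / Real.log y ^ A ≤ h → (h : ℝ) ≤ y / Real.log y →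
      ∀ c : ℤ, |c| ≤ B * (S α β γ y : ℤ) →
      (((Ioc (y - h) y).filter (fun n : ℕ => ¬ Near α β γ κ c A W ε n)).card : ℝ) ≤ h / Real.log y ^ U) ∧
    ∀ c : ℤ, ∀ᶠ X : ℕ in atTop,
      (((Icc 1 X).filter (fun n : ℕ => ¬ Near α β γ κ c A W ε n)).card : ℝ) ≤ X / Real.log X ^ U := by
  obtain ⟨m₀, h0⟩ := holds_of A ε hε
  have key := Pool.Agent.U710.LE.near_of α β γ hα hγ1 hγ2 κ W (fun m => 0 < m → Even m → Holds ε A (m.toNat / 2))
    (fun ζ σ a B U hζ hζ1 hσ => by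
      refine Pool.Agent.N625.DY.cls_gold (Pool.Agent.U710.LE.clsV ζ hζ hζ1 a σ hσ κ hκ).toCls B (A + 1) W U m₀
        (min ε (1 / 2) / 2) (div_pos (lt_min hε (by norm_num)) (by norm_num)) (fun m => Holds ε A (m / 2)) ?_ _ ?_
      · intro m hm h2 hwin
        have e : 2 * (m / 2) = m := Nat.mul_div_cancel' h2
        exact h0 (m / 2) (by omega) (by rw [e]; exact hwin)
      · intro y hy
        push Not at hy
        exact hy) U
  obtain ⟨key1, key2⟩ := key
  exact ⟨fun B => key1 A B, key2⟩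

end Pool.Agent.Results.MP_73b532_nt.SubexponentialSequences
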